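import Pool.Agent.Zk51.RG.More
import Pool.Agent.N64.AF.M5

/-!
# Flat classes on a family which are algebraic on one fibre: definitions
-/

set_option autoImplicit false

open CategoryTheory Limits MonoidalCategory Module Filter Topology
open Pool.Agent.Y112.SR Pool.Agent.Y112.KD Pool.Agent.N64.AF Pool.Agent.Zk51.RG
open scoped ENNReal

namespace Pool.Agent.Zk51.VH

universe v u w x y

variable (B : Type y) (C : Type u) [Category.{v} C] [Preadditive C] [Linear ℚ C]

/-- The global sections of the rational topological K-theory of the families `𝒟 ⊠ Z`, where `Z` runs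
through the families of smooth proper categories over the base with the set of points `B`, and the
subspaces of the sections which are algebraic at the point `s`. -/
structure FlatClasses where
  /-- `Z ↦` the global sections of `K₀^top(𝒟 ⊠ Z) ⊗ ℚ` -/
  V : AddFun.{v, u, 0, x} ℚ C
  /-- the sections whose fibre at the point `s` is algebraic -/
  alg : B → ∀ Z : C, V.Sub Z

namespace FlatClasses

variable {B C} (D : FlatClasses.{v, u, x, y} B C)

/-- The morphisms of `C` preserve the sections which are algebraic at `s`, for `s` in `A`. -/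
def Stable (A : Set B) : Prop :=
  ∀ s ∈ A, ∀ (Y Z : C) (f : Y ⟶ Z), (D.alg s Y).map (D.V.act f) ≤ D.alg s Z

/-- The sections which are algebraic at all points of `A`. -/
def algA (A : Set B) (Z : C) : D.V.Sub Z := ⨅ s : A, D.alg s Z

/-- Each section which is algebraic at the point `o` is algebraic at all points of `A`. -/
def VHC (o : B) (A : Set B) (Z : C) : Prop := ∀ s ∈ A, D.alg o Z ≤ D.alg s Z

/-- The number of linearly independent sections which are algebraic at `o`, modulo those which are
algebraic at all points of `A`. -/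
noncomputable def defect (o : B) (A : Set B) (Z : C) : ℕ∞ := dimQuot (D.alg o Z) (D.algA A Z)

end FlatClasses

section

variable {B : Type y} {C : Type u} [Category.{v} C] [Preadditive C] [MonoidalCategory C]
  [MonoidalPreadditive C] [SymmetricCategory C] [RightRigidCategory C]
  [Linear ℚ C] [MonoidalLinear ℚ C]
  {K : Type w} [Field K] [IsAlgClosed K] [Algebra ℚ K]

namespace FlatClasses

variable (D : FlatClasses.{v, u, x, y} B C)

/-- Compositions of `k` numerically trivial morphisms between powers of `T` map the sections which are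
algebraic at `o` to sections which are algebraic at all points of `A`. -/
def Killed (T : C) (o : B) (A : Set B) (k : ℕ) : Prop :=
  ∀ (a b : ℕ) (f : tp T a ⟶ tp T b), NumPow T k f →
    (D.alg o (tp T a)).map (D.V.act f) ≤ D.algA A (tp T b)

/-- At most `k` sections `z i` of one power of `T` which are algebraic at `o` generate all sections of
all powers of `T` with this property, modulo the sections which are algebraic at all points of `A`. -/
def Generated (T : C) (o : B) (A : Set B) (k : ℕ) : Prop :=
  ∃ (m l : ℕ) (z : Fin l → D.V.Grp (tp T m)), l ≤ k ∧ (∀ i, z i ∈ D.alg o (tp T m)) ∧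
    ∀ n, D.alg o (tp T n) ≤ D.algA A (tp T n) ⊔
      Submodule.span ℚ {y | ∃ (i : Fin l) (c : tp T m ⟶ tp T n), D.V.act c (z i) = y}

/-- The law for the powers of `T`. -/
def Law (R : SuperRealisation C K) (T : C) (o : B) (A : Set B) : Prop :=
  ∃ N : ℕ∞, RatioTo ℚ T (fun n => D.defect o A (tp T n)) N ∧
    (N = 0 ↔ ∀ n, D.VHC o A (tp T n)) ∧
    (∀ k : ℕ, N = k → IsMotivic ℚ R T k (fun n => D.defect o A (tp T n)) ∧
      D.Killed T o A k ∧ D.Generated T o A k) ∧
    ((∀ n, SumOf (fun Z => D.VHC o A Z) (tp T n)) → N = 0 ∨ N = ⊤)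

/-- The growth gap: if one section of `T' = (T ⊗ T^∨)^m` is algebraic at `o` and not at all points of
`A` then there are very many such sections of `(T ⊗ T^∨)^n` for all large `n`. -/
def GrowthGap (R : SuperRealisation C K) (T : C) (o : B) (A : Set B) : Prop :=
  ∀ m n : ℕ, 128 * (m + 1) ^ 2 * bt R T ^ (4 * m + 12) ≤ n → ¬ D.VHC o A (tp (T ⊗ Tᘁ) m) →
    ((bt R T ^ (2 * n) : ℕ) : ℕ∞) ≤
      (2 * (n + 1) ^ (bt R T ^ 2) : ℕ) * D.defect o A (tp (T ⊗ Tᘁ) n)

end FlatClasses

end

end Pool.Agent.Zk51.VH
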