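import Pool.Agent.Zk51.VH.Defs

/-!
# The law for flat classes which are algebraic on one fibre
-/

set_option autoImplicit false
set_option linter.unusedSectionVars false

open CategoryTheory Limits MonoidalCategory Module Filter Topology
open Pool.Agent.Y112.SR Pool.Agent.Y112.KD Pool.Agent.N64.AF Pool.Agent.Zk51.RG
open scoped ENNReal

namespace Pool.Agent.Zk51.VH

universe v u w x y

variable {B : Type y} {C : Type u} [Category.{v} C] [Preadditive C] [MonoidalCategory C]
  [MonoidalPreadditive C] [SymmetricCategory C] [RightRigidCategory C]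
  [Linear ℚ C] [MonoidalLinear ℚ C]
  {K : Type w} [Field K] [IsAlgClosed K] [Algebra ℚ K] {R : SuperRealisation C K}

namespace FlatClasses

variable {D : FlatClasses.{v, u, x, y} B C} {A : Set B} {o : B}

lemma alg_stab (hD : D.Stable A) (ho : o ∈ A) :
    IsStab D.V.F (fun Z => (D.alg o Z : Submodule ℚ (D.V.F.obj Z))) :=
  fun Y Z f a ha => hD o ho Y Z f ⟨a, ha, rfl⟩

/-- The functor of the sections which are algebraic at `o`. -/
abbrev algF (hD : D.Stable A) (ho : o ∈ A) : C ⥤ ModuleCat.{x} ℚ :=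
  sub D.V.F _ (alg_stab hD ho)

/-- The sections which are algebraic at all points of `A`. -/
def algS (hD : D.Stable A) (ho : o ∈ A) (Z : C) : Submodule ℚ ((algF hD ho).obj Z) :=
  (D.algA A Z).comap (D.alg o Z).subtype

lemma mem_algA {Z : C} {a : D.V.Grp Z} : a ∈ D.algA A Z ↔ ∀ s ∈ A, a ∈ D.alg s Z := by
  unfold algA
  rw [Submodule.mem_iInf]
  exact ⟨fun h s hs => h ⟨s, hs⟩, fun h s => h s.1 s.2⟩

lemma algA_act (hD : D.Stable A) {Y Z : C} (f : Y ⟶ Z) {a : D.V.Grp Y} (ha : a ∈ D.algA A Y) :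
    D.V.act f a ∈ D.algA A Z := by
  rw [mem_algA] at ha ⊢
  exact fun s hs => hD s hs Y Z f ⟨a, ha s hs, rfl⟩

lemma algS_stab (hD : D.Stable A) (ho : o ∈ A) : IsStab (algF hD ho) (algS hD ho) :=
  fun _ _ f _ ha => algA_act hD f ha

/-- The functor of the sections which are algebraic at `o` modulo those which are algebraic at all
points of `A`. -/
abbrev defF (hD : D.Stable A) (ho : o ∈ A) : C ⥤ ModuleCat.{x} ℚ :=
  quoS (algF hD ho) (algS hD ho) (algS_stab hD ho)

lemma vhc_iff (hD : D.Stable A) (ho : o ∈ A) (Z : C) :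
    Subsingleton ((defF hD ho).obj Z) ↔ D.VHC o A Z := by
  refine (Submodule.Quotient.subsingleton_iff
    (p := (D.algA A Z).comap (D.alg o Z).subtype)).trans ?_
  refine (Submodule.comap_subtype_eq_top (p := D.alg o Z) (p' := D.algA A Z)).trans ?_
  constructor
  · intro h s hs a ha
    exact mem_algA.1 (h ha) s hs
  · intro h a ha
    exact mem_algA.2 fun s hs => h s hs ha

/-- **The law.** -/
theorem law_main {T : C} [ExactPairing T T] (h : IsPow ℚ R T) (hD : D.Stable A) (ho : o ∈ A) :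
    D.Law R T o A := by
  obtain ⟨N, h1, h2, h3, h4⟩ := full_law h (defF hD ho)
  obtain ⟨N', a1, -, a3⟩ := law h (defF hD ho)
  have hN : N' = N := by
    have h5 := tendsto_nhds_unique a1 h1
    exact_mod_cast h5
  refine ⟨N, h1, h2.trans (forall_congr' fun n => vhc_iff hD ho _), ?_, ?_⟩
  · intro k hk
    obtain ⟨h5, h6⟩ := h3 k hk
    refine ⟨h5, ?_, ?_⟩
    · rintro a b f hf _ ⟨y, hy, rfl⟩
      have h7 := congrArg (fun q : (defF hD ho).obj (tp T a) ⟶ (defF hD ho).obj (tp T b) =>
        (q.hom (Submodule.Quotient.mk ⟨y, hy⟩))) (h6 a b f hf)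
      have h8 : (Submodule.Quotient.mk (⟨D.V.act f y, hD o ho _ _ f ⟨y, hy, rfl⟩⟩ :
          D.alg o (tp T b)) : D.alg o (tp T b) ⧸ (D.algA A (tp T b)).comap
            (D.alg o (tp T b)).subtype) = 0 := h7
      rw [Submodule.Quotient.mk_eq_zero] at h8
      exact h8
    · obtain ⟨-, m, l, z, hl, hz⟩ := a3 (by rw [hN, hk]; exact ENat.natCast_ne_top k)
      have hsurj := Submodule.mkQ_surjective ((D.algA A (tp T m)).comap (D.alg o (tp T m)).subtype)
      choose z' hz' using fun i => hsurj (z i)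
      refine ⟨m, l, fun i => (z' i : D.V.Grp (tp T m)), ?_, fun i => (z' i).2, ?_⟩
      · rw [hN, hk] at hl
        exact_mod_cast hl
      · intro n y hy
        set W : Submodule ℚ (D.V.Grp (tp T n)) := D.algA A (tp T n) ⊔
          Submodule.span ℚ {y | ∃ (i : Fin l) (c : tp T m ⟶ tp T n),
            D.V.act c (z' i : D.V.Grp (tp T m)) = y} with hW
        have h7 := hz n (Submodule.Quotient.mk (⟨y, hy⟩ : D.alg o (tp T n)))
        let Q : Submodule ℚ (D.alg o (tp T n)) :=
          (D.algA A (tp T n)).comap (D.alg o (tp T n)).subtype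
        let W' : Submodule ℚ ((defF hD ho).obj (tp T n)) :=
          (W.comap (D.alg o (tp T n)).subtype).map Q.mkQ
        have h8 : Submodule.span ℚ {y : (defF hD ho).obj (tp T n) | ∃ (i : Fin l)
            (c : tp T m ⟶ tp T n), ((defF hD ho).map c).hom (z i) = y} ≤ W' := by
          refine Submodule.span_le.2 ?_
          rintro _ ⟨i, c, rfl⟩
          refine ⟨⟨D.V.act c (z' i), hD o ho _ _ c ⟨_, (z' i).2, rfl⟩⟩, ?_, ?_⟩
          · exact (le_sup_right : _ ≤ W) (Submodule.subset_span ⟨i, c, rfl⟩)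
          · rw [← hz' i]
            rfl
        obtain ⟨⟨w, hw⟩, hwW, hwy⟩ := h8 h7
        have h9 : (⟨w, hw⟩ : D.alg o (tp T n)) - ⟨y, hy⟩ ∈ Q :=
          (Submodule.Quotient.eq Q).1 hwy
        have h10 : w - y ∈ D.algA A (tp T n) := h9
        have h11 : w ∈ W := hwW
        have h12 : y = w - (w - y) := by abel
        rw [h12]
        exact Submodule.sub_mem _ h11 ((le_sup_left : _ ≤ W) h10)
  · intro hs
    by_cases hN : N = ⊤
    · exact Or.inr hN
    · left
      rw [h2]
      intro n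
      refine zero_of_sumOf (defF hD ho) ?_ (h4 hN n)
      obtain ⟨s, Z, α, β, hZ, hn⟩ := hs n
      exact ⟨s, Z, α, β, fun j => (vhc_iff hD ho _).2 (hZ j), hn⟩

/-- **The growth gap.** -/
theorem gap_main (hR : IsReal ℚ R) {T : C} (hT : R.CPlus T) (hb : 0 < bt R T)
    (hD : D.Stable A) (ho : o ∈ A) : D.GrowthGap R T o A := by
  intro m n hn hm
  refine growth_gap hR hT hb (defF hD ho) hn ?_
  rw [vhc_iff]
  exact hm

end FlatClasses

end Pool.Agent.Zk51.VH
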